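import Pool.Agent.H247.CB.Stm
import Pool.Graph.R_seed8.Y38.CO.EIG

/-!
# CB LA: matrices with at most one eigenvalue of modulus one
-/

set_option autoImplicit false

open Filter Set Metric Polynomial

namespace Pool.Agent.H407.CB.LA

open Pool.Agent.H718R2.G Pool.Agent.Y504.CO Pool.Agent.H247.CB
open Pool.Agent.Y38.CO.EIG (eig_of_root BS KK KK_maps norm_eq_one)

/-- the characteristic polynomial of the restriction to an invariant subspace -/
theorem charpoly_restrict_dvd {E : Type} [AddCommGroup E] [Module ℝ E] [FiniteDimensional ℝ E]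
    (f : E →ₗ[ℝ] E) (W : Submodule ℝ E) (h : ∀ x ∈ W, f x ∈ W) :
    (f.restrict h).charpoly ∣ f.charpoly := by
  classical
  obtain ⟨W', hW'⟩ := Submodule.exists_isCompl W
  let e := Submodule.prodEquivOfIsCompl W W' hW'
  have h1 : (e.symm.conj f).charpoly = f.charpoly := LinearEquiv.charpoly_conj _ _
  rw [← h1]
  let b1 := Module.finBasis ℝ W
  let b2 := Module.finBasis ℝ W'
  let f' : (W × W') →ₗ[ℝ] (W × W') := e.symm.conj f
  have hf' : ∀ w : W, f' (w, 0) = (f.restrict h w, 0) := by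
    intro w
    change e.symm (f (e (w, 0))) = (f.restrict h w, 0)
    have h2 : e (w, 0) = (w : E) := by
      change (w : E) + ((0 : W') : E) = w
      simp
    rw [h2, LinearEquiv.symm_apply_eq]
    change f w = (f.restrict h w : E) + ((0 : W') : E)
    simp
  rw [← LinearMap.charpoly_toMatrix (e.symm.conj f) (b1.prod b2),
    ← LinearMap.charpoly_toMatrix (f.restrict h) b1]
  change _ ∣ (LinearMap.toMatrix (b1.prod b2) (b1.prod b2) f').charpoly
  rw [← Matrix.fromBlocks_toBlocks (LinearMap.toMatrix (b1.prod b2) (b1.prod b2) f')]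
  have h21 : (LinearMap.toMatrix (b1.prod b2) (b1.prod b2) f').toBlocks₂₁ = 0 := by
    ext i j
    change LinearMap.toMatrix (b1.prod b2) (b1.prod b2) f' (Sum.inr i) (Sum.inl j) = 0
    rw [LinearMap.toMatrix_apply]
    have h3 : (b1.prod b2) (Sum.inl j) = (b1 j, 0) := by
      rw [Module.Basis.prod_apply]
      rfl
    rw [h3, hf', Module.Basis.prod_repr_inr]
    simp
  have h11 : (LinearMap.toMatrix (b1.prod b2) (b1.prod b2) f').toBlocks₁₁ =
      LinearMap.toMatrix b1 b1 (f.restrict h) := by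
    ext i j
    change LinearMap.toMatrix (b1.prod b2) (b1.prod b2) f' (Sum.inl i) (Sum.inl j) = _
    rw [LinearMap.toMatrix_apply, LinearMap.toMatrix_apply]
    have h3 : (b1.prod b2) (Sum.inl j) = (b1 j, 0) := by
      rw [Module.Basis.prod_apply]
      rfl
    rw [h3, hf', Module.Basis.prod_repr_inl]
  rw [h21, Matrix.charpoly_fromBlocks_zero₂₁, h11]
  exact Dvd.intro _ rfl

/-- the eigenvalues on the space of bounded orbits have modulus one -/
theorem root_norm {n : ℕ} (A : V n →L[ℝ] V n) (μ : ℂ)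
    (hμ : ((LinearMap.charpoly ((A : V n →ₗ[ℝ] V n).restrict
      (KK_maps (A := A)))).map (algebraMap ℝ ℂ)).IsRoot μ) : ‖μ‖ = 1 := by
  obtain ⟨u, w, huw, hu, hw⟩ := eig_of_root _ μ hμ
  have hu' : A (u : V n) = μ.re • (u : V n) - μ.im • (w : V n) := congrArg Subtype.val hu
  have hw' : A (w : V n) = μ.im • (u : V n) + μ.re • (w : V n) := congrArg Subtype.val hw
  obtain ⟨U, hU, hU0⟩ := u.2
  obtain ⟨W, hW, hW0⟩ := w.2
  have e1 : ∀ k, U (k + 1) = μ.re • U k - μ.im • W k := by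
    have h1 : BS A (fun k => U (k + 1) + ((-μ.re) • U k + μ.im • W k)) :=
      (hU.shift 1).add ((hU.smul _).add (hW.smul _))
    have h2 := h1.uniq (by
      change U (0 + 1) + ((-μ.re) • U 0 + μ.im • W 0) = 0
      rw [hU.2, hU0, hW0, hu', neg_smul]
      abel)
    intro k
    have h3 : U (k + 1) + ((-μ.re) • U k + μ.im • W k) = 0 := h2 k
    rw [neg_smul] at h3
    rw [eq_neg_of_add_eq_zero_left h3]
    abel
  have e2 : ∀ k, W (k + 1) = μ.im • U k + μ.re • W k := by
    have h1 : BS A (fun k => W (k + 1) + ((-μ.im) • U k + (-μ.re) • W k)) :=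
      (hW.shift 1).add ((hU.smul _).add (hW.smul _))
    have h2 := h1.uniq (by
      change W (0 + 1) + ((-μ.im) • U 0 + (-μ.re) • W 0) = 0
      rw [hW.2, hU0, hW0, hw', neg_smul, neg_smul]
      abel)
    intro k
    have h3 : W (k + 1) + ((-μ.im) • U k + (-μ.re) • W k) = 0 := h2 k
    rw [neg_smul, neg_smul] at h3
    rw [eq_neg_of_add_eq_zero_left h3]
    abel
  have huw' : (u : V n) ≠ 0 ∨ (w : V n) ≠ 0 := huw.imp (fun h h' => h (Subtype.ext h'))
    (fun h h' => h (Subtype.ext h'))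
  obtain ⟨C, hC⟩ := hU.1
  obtain ⟨D, hD⟩ := hW.1
  have h1 := norm_eq_one e1 e2 (C := max C D) (fun k => (hC k).trans (le_max_left _ _))
    (fun k => (hD k).trans (le_max_right _ _)) (by rw [hU0, hW0]; exact huw')
  have h2 : ‖μ‖ ^ 2 = 1 := by
    rw [Complex.sq_norm, Complex.normSq_apply]
    linarith
  have h3 : (‖μ‖ - 1) * (‖μ‖ + 1) = 0 := by linear_combination h2
  rcases mul_eq_zero.1 h3 with h | h
  · linarith
  · have := norm_nonneg μ
    linarith

/-- the space of the bounded orbits has dimension at most one -/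
theorem finrank_le {n : ℕ} (A : V n →L[ℝ] V n) (hA : AtMostOne A) :
    Module.finrank ℝ (KK A) ≤ 1 := by
  by_contra hcon
  push Not at hcon
  have hdvd := charpoly_restrict_dvd (A : V n →ₗ[ℝ] V n) (KK A) KK_maps
  have hdvd' := Polynomial.map_dvd (algebraMap ℝ ℂ) hdvd
  have hroot := fun μ h => root_norm A μ h
  obtain ⟨p, hp⟩ : ∃ p : ℂ[X], p = (LinearMap.charpoly ((A : V n →ₗ[ℝ] V n).restrict
      (KK_maps (A := A)))).map (algebraMap ℝ ℂ) := ⟨_, rfl⟩
  have hdeg : p.natDegree = Module.finrank ℝ (KK A) := by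
    rw [hp, Polynomial.natDegree_map, LinearMap.charpoly_natDegree]
  have hp0 : p ≠ 0 := by
    rw [hp]
    exact ((LinearMap.charpoly_monic _).map _).ne_zero
  rw [← hp] at hdvd'
  have hroot' : ∀ μ, p.IsRoot μ → ‖μ‖ = 1 := by
    intro μ h
    rw [hp] at h
    exact hroot μ h
  obtain ⟨μ₁, h1⟩ := IsAlgClosed.exists_root p (by
    rw [Polynomial.degree_eq_natDegree hp0, hdeg]
    exact_mod_cast (by omega : Module.finrank ℝ (KK A) ≠ 0))
  obtain ⟨q, hq⟩ := Polynomial.dvd_iff_isRoot.2 h1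
  have hq0 : q ≠ 0 := by
    intro h0
    rw [h0, mul_zero] at hq
    exact hp0 hq
  have hqd : p.natDegree = 1 + q.natDegree := by
    rw [hq, Polynomial.natDegree_mul (Polynomial.X_sub_C_ne_zero _) hq0,
      Polynomial.natDegree_X_sub_C]
  obtain ⟨μ₂, h2⟩ := IsAlgClosed.exists_root q (by
    rw [Polynomial.degree_eq_natDegree hq0]
    exact_mod_cast (by omega : q.natDegree ≠ 0))
  obtain ⟨r, hr⟩ := Polynomial.dvd_iff_isRoot.2 h2
  have h2' : p.IsRoot μ₂ := by
    rw [Polynomial.IsRoot, hq, Polynomial.eval_mul, h2, mul_zero]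
  refine hA μ₁ μ₂ (hroot' μ₁ h1) (hroot' μ₂ h2') (Dvd.dvd.trans ⟨r, ?_⟩ hdvd')
  rw [hq, hr, mul_assoc]

theorem main : S_LA := by
  intro n A _ hA
  have hfr := finrank_le A hA
  by_cases h0 : Module.finrank ℝ (KK A) = 0
  · left
    intro v hv1 hv2 i
    have hK : KK A = ⊥ := Submodule.finrank_eq_zero.1 h0
    have h1 : v i ∈ KK A := BS.mem ⟨hv1, hv2⟩ i
    rw [hK] at h1
    exact (Submodule.mem_bot ℝ).1 h1
  · right
    have h1 : Module.finrank ℝ (KK A) = 1 := by omega
    obtain ⟨⟨e, heK⟩, he0, hspan⟩ := finrank_eq_one_iff'.1 h1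
    have he : e ≠ 0 := fun h => he0 (Subtype.ext h)
    have hsp : ∀ x ∈ KK A, ∃ c : ℝ, c • e = x := by
      intro x hx
      obtain ⟨c, hc⟩ := hspan ⟨x, hx⟩
      exact ⟨c, congrArg Subtype.val hc⟩
    obtain ⟨lam, hlam⟩ := hsp (A e) (KK_maps e heK)
    -- the eigenvalue
    obtain ⟨v, hv, hv0⟩ := heK
    have hAK : ∀ x ∈ KK A, A x = lam • x := by
      intro x hx
      obtain ⟨c, hc⟩ := hsp x hx
      rw [← hc, map_smul, ← hlam, smul_comm]
    have hlam2 : lam ^ 2 + (0 : ℝ) ^ 2 = 1 := by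
      obtain ⟨C, hC⟩ := hv.1
      refine norm_eq_one (U := v) (W := fun _ => 0) (C := max C 0) (fun k => ?_) (fun k => ?_)
        (fun k => (hC k).trans (le_max_left _ _)) (fun k => ?_) (Or.inl ?_)
      · rw [hv.2, hAK _ (hv.mem k)]
        simp
      · simp
      · simp
      · rw [hv0]
        exact he
    have hlam1 : lam = 1 ∨ lam = -1 := by
      have h2 : (lam - 1) * (lam + 1) = 0 := by linear_combination hlam2
      rcases mul_eq_zero.1 h2 with h | h
      · left
        linarith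
      · right
        linarith
    have hlam0 : lam ≠ 0 := by
      rcases hlam1 with h | h <;> rw [h] <;> norm_num
    have habs : |lam| = 1 := by
      rcases hlam1 with h | h <;> rw [h] <;> norm_num
    -- the characteristic polynomial
    have hev : Module.End.HasEigenvector (A : V n →ₗ[ℝ] V n) lam e :=
      ⟨Module.End.mem_eigenspace_iff.2 hlam.symm, he⟩
    have hroot : (LinearMap.charpoly (A : V n →ₗ[ℝ] V n)).IsRoot lam :=
      (Module.End.hasEigenvalue_iff_isRoot_charpoly _ _).1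
        (Module.End.hasEigenvalue_of_hasEigenvector hev)
    obtain ⟨g, hg⟩ := Polynomial.dvd_iff_isRoot.2 hroot
    have hnorm : ‖(lam : ℂ)‖ = 1 := by
      rw [Complex.norm_real, Real.norm_eq_abs, habs]
    have hglam : g.eval lam ≠ 0 := by
      intro h2
      obtain ⟨r, hr⟩ := Polynomial.dvd_iff_isRoot.2 h2
      refine hA (lam : ℂ) (lam : ℂ) hnorm hnorm ⟨r.map (algebraMap ℝ ℂ), ?_⟩
      rw [hg, hr, Polynomial.map_mul, Polynomial.map_mul, Polynomial.map_sub, Polynomial.map_X,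
        Polynomial.map_C, ← mul_assoc]
      rfl
    -- the operator `g(A)`
    obtain ⟨T, hT⟩ : ∃ T : V n →ₗ[ℝ] V n, T = Polynomial.aeval (A : V n →ₗ[ℝ] V n) g := ⟨_, rfl⟩
    have hT1 : ∀ x, A (T x) = lam • T x := by
      intro x
      have h2 : Polynomial.aeval (A : V n →ₗ[ℝ] V n) ((X - C lam) * g) = 0 := by
        rw [← hg]
        exact LinearMap.aeval_self_charpoly _
      rw [map_mul, map_sub, Polynomial.aeval_X, Polynomial.aeval_C, ← hT] at h2
      have h3 := LinearMap.congr_fun h2 x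
      have h4 : A (T x) - lam • T x = 0 := h3
      exact sub_eq_zero.1 h4
    have hT2 : ∀ x, T (A x) = A (T x) := by
      intro x
      have h2 : Polynomial.aeval (A : V n →ₗ[ℝ] V n) (g * X) =
          Polynomial.aeval (A : V n →ₗ[ℝ] V n) (X * g) := by rw [mul_comm]
      rw [map_mul, map_mul, Polynomial.aeval_X, ← hT] at h2
      exact LinearMap.congr_fun h2 x
    have hT3 : ∀ x, T x ∈ KK A := by
      intro x
      refine ⟨fun i : ℤ => (lam ^ i) • T x, ⟨⟨‖T x‖, fun i => ?_⟩, fun i => ?_⟩, ?_⟩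
      · change ‖(lam ^ i) • T x‖ ≤ ‖T x‖
        rw [norm_smul, norm_zpow, Real.norm_eq_abs, habs, one_zpow, one_mul]
      · change (lam ^ (i + 1)) • T x = A ((lam ^ i) • T x)
        rw [map_smul, hT1, smul_smul, zpow_add_one₀ hlam0]
      · change (lam ^ (0 : ℤ)) • T x = T x
        rw [zpow_zero, one_smul]
    have hTe : T e = g.eval lam • e := by
      rw [hT]
      exact Module.End.aeval_apply_of_hasEigenvector hev
    -- the functional
    have hne : ‖e‖ ^ 2 ≠ 0 := pow_ne_zero _ (norm_ne_zero_iff.2 he)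
    obtain ⟨φ, hφ⟩ : ∃ φ : V n →L[ℝ] ℝ, φ e = 1 := by
      refine ⟨(‖e‖ ^ 2)⁻¹ • innerSL ℝ e, ?_⟩
      change (‖e‖ ^ 2)⁻¹ * (innerSL ℝ e) e = 1
      rw [innerSL_apply_apply, real_inner_self_eq_norm_sq]
      exact inv_mul_cancel₀ hne
    refine ⟨lam, e, (g.eval lam)⁻¹ • φ.comp (LinearMap.toContinuousLinearMap T), ?_⟩
    have hℓ : ∀ x, ((g.eval lam)⁻¹ • φ.comp (LinearMap.toContinuousLinearMap T)) x =
        (g.eval lam)⁻¹ * φ (T x) := fun x => rfl
    have hℓe : ((g.eval lam)⁻¹ • φ.comp (LinearMap.toContinuousLinearMap T)) e = 1 := by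
      rw [hℓ, hTe, map_smul, hφ, smul_eq_mul, mul_one]
      exact inv_mul_cancel₀ hglam
    refine ⟨hlam1, hlam.symm, fun x => ?_, hℓe, fun w hw1 hw2 hw3 i => ?_⟩
    · rw [hℓ, hℓ, hT2, hT1, map_smul, smul_eq_mul]
      ring
    · have h2 : w i ∈ KK A := BS.mem ⟨hw1, hw2⟩ i
      obtain ⟨c, hc⟩ := hsp _ h2
      have h3 := hw3 i
      rw [← hc, map_smul, hℓe, smul_eq_mul, mul_one] at h3
      rw [← hc, h3, zero_smul]

end Pool.Agent.H407.CB.LA
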